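import Pool.Agent.MVS.Stmts
import Pool.Agent.Helper36_RF.Chr
import Pool.Agent.Helper5_RF.Nat
import Pool.Agent.Helper5_RF.Diffeo

/-!
Squad MVS, row RES: the fixed three-space is totally geodesic.
-/

set_option autoImplicit false

noncomputable section

open scoped ContDiff Topology RealInnerProductSpace
open Set

namespace Pool.Agent.MVS.H88

open Pool.Agent.RF

theorem eb_apply {ι : Type} [Fintype ι] [DecidableEq ι] (i j : ι) :
    (eb i : E ι) j = if j = i then 1 else 0 := by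
  unfold eb
  rw [PiLp.single_apply]

theorem pP_apply (κ : Finset (Fin 5)) (x : E5) (j : Fin 5) :
    (pP κ x) j = if j ∈ κ then x j else 0 := by
  have h1 : pP κ x = ∑ i ∈ κ, x i • (eb i : E5) := by
    unfold pP
    rw [_root_.sum_apply]
    rfl
  rw [h1, WithLp.ofLp_sum, Finset.sum_apply]
  have h2 : ∀ i ∈ κ, (x i • (eb i : E5)) j = if j = i then x j else 0 := by
    intro i _
    show x i * (eb i : E5) j = _
    rw [eb_apply]
    by_cases h : j = i
    · rw [if_pos h, if_pos h, h, mul_one]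
    · rw [if_neg h, if_neg h, mul_zero]
  rw [Finset.sum_congr rfl h2, Finset.sum_ite_eq]

/-- `inc` in the first case -/
theorem inc_01 (x : E3) : inc {0, 1} x = x 0 • (eb 2 : E5) + x 1 • (eb 3 : E5) + x 2 • (eb 4 : E5) := by
  unfold inc
  rw [if_pos rfl]
  rfl

/-- `inc` in the second case -/
theorem inc_23 (x : E3) : inc {2, 3} x = x 0 • (eb 0 : E5) + x 1 • (eb 1 : E5) + x 2 • (eb 4 : E5) := by
  unfold inc
  rw [if_neg (by decide)]
  rfl

theorem inc_facts (κ : Finset (Fin 5)) (hκ : κ = {0, 1} ∨ κ = {2, 3}) :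
    (∀ x y : E3, ⟪inc κ x, inc κ y⟫ = (⟪x, y⟫ : ℝ)) ∧ (∀ x : E3, pP κ (inc κ x) = 0) ∧
    (∀ z : E5, pP κ z = 0 → ∃ x : E3, inc κ x = z) := by
  rcases hκ with rfl | rfl
  · refine ⟨fun x y => ?_, fun x => ?_, fun z hz => ?_⟩
    · rw [inc_01, inc_01, PiLp.inner_apply, PiLp.inner_apply, Fin.sum_univ_five, Fin.sum_univ_three]
      simp [eb_apply]
    · ext j
      rw [pP_apply, inc_01]
      fin_cases j <;> simp [eb_apply]
    · refine ⟨(WithLp.toLp 2 ![z 2, z 3, z 4] : E3), ?_⟩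
      have h0 : ∀ j, (pP ({0, 1} : Finset (Fin 5)) z) j = 0 := fun j => by rw [hz]; rfl
      have e0 := h0 0
      have e1 := h0 1
      rw [pP_apply, if_pos (by decide)] at e0 e1
      rw [inc_01]
      ext j
      fin_cases j <;> simp [eb_apply, e0, e1]
  · refine ⟨fun x y => ?_, fun x => ?_, fun z hz => ?_⟩
    · rw [inc_23, inc_23, PiLp.inner_apply, PiLp.inner_apply, Fin.sum_univ_five, Fin.sum_univ_three]
      simp [eb_apply]
    · ext j
      rw [pP_apply, inc_23]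
      fin_cases j <;> simp [eb_apply]
    · refine ⟨(WithLp.toLp 2 ![z 0, z 1, z 4] : E3), ?_⟩
      have h0 : ∀ j, (pP ({2, 3} : Finset (Fin 5)) z) j = 0 := fun j => by rw [hz]; rfl
      have e2 := h0 2
      have e3 := h0 3
      rw [pP_apply, if_pos (by decide)] at e2 e3
      rw [inc_23]
      ext j
      fin_cases j <;> simp [eb_apply, e2, e3]

theorem res (_rot : RotStatement) (eqv : EqvStatement) : ResStatement := by
  intro G κ a b hκ hS
  obtain ⟨hin, hP, hsurj⟩ := inc_facts κ hκ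
  obtain ⟨-, -, hE3⟩ := eqv G κ a b hS
  have hfd : ∀ y : E3, fderiv ℝ (inc κ : E3 → E5) y = inc κ := fun y => (inc κ).fderiv
  have hfd' : fderiv ℝ (inc κ : E3 → E5) = fun _ => inc κ := funext hfd
  have hn : ∀ x : E3, ‖inc κ x‖ ^ 2 = ‖x‖ ^ 2 := by
    intro x
    rw [← real_inner_self_eq_norm_sq, ← real_inner_self_eq_norm_sq, hin]
  have hinj0 : ∀ x : E3, inc κ x = 0 → x = 0 := by
    intro x hx
    have h1 := hn x
    rw [hx, norm_zero] at h1
    have h2 : ‖x‖ = 0 := by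
      have : ‖x‖ ^ 2 = 0 := by rw [← h1]; norm_num
      exact pow_eq_zero_iff (two_ne_zero) |>.mp this
    exact norm_eq_zero.mp h2
  have hinj : Function.Injective (inc κ) := by
    intro x y hxy
    have h1 : inc κ (x - y) = 0 := by rw [map_sub, hxy, sub_self]
    exact sub_eq_zero.mp (hinj0 _ h1)
  have hmaps : MapsTo (inc κ : E3 → E5) (Om (Fin 3)) (Om (Fin 5)) := by
    intro x hx h0
    exact hx (hinj0 x h0)
  have hopen : IsOpen (Om (Fin 3)) := isOpen_compl_singleton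
  have hsm : ContDiffOn ℝ ∞ (inc κ : E3 → E5) (Om (Fin 3)) := (inc κ).contDiff.contDiffOn
  have hmet : IsMetricOn (pullb G (inc κ)) (Om (Fin 3)) := by
    refine H5.pullb_isMetricOn hS.cyl.metric hopen hsm hmaps ?_
    intro y _
    rw [hfd y]
    exact hinj
  have hcyl : IsCyl (pullb G (inc κ)) := by
    refine ⟨hmet, ?_, ?_⟩
    · intro c hc x hx
      ext v w
      show G (inc κ (c • x)) (fderiv ℝ (inc κ : E3 → E5) (c • x) v) (fderiv ℝ (inc κ : E3 → E5) (c • x) w) =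
        (c ^ 2)⁻¹ * G (inc κ x) (fderiv ℝ (inc κ : E3 → E5) x v) (fderiv ℝ (inc κ : E3 → E5) x w)
      rw [hfd, hfd, map_smul, hS.cyl.homog c hc _ (hmaps hx)]
      rfl
    · intro x hx w
      show G (inc κ x) (fderiv ℝ (inc κ : E3 → E5) x x) (fderiv ℝ (inc κ : E3 → E5) x w) = _
      rw [hfd, hS.cyl.radial _ (hmaps hx), hin, hn]
  -- totally geodesic
  have hstar : StarOn (pullb G (inc κ)) G (inc κ : E3 → E5) (Om (Fin 3)) := by
    intro y hy v w
    have h0 : fderiv ℝ (fun z => fderiv ℝ (inc κ : E3 → E5) z w) y v = 0 := by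
      rw [hfd']
      have h1 : fderiv ℝ (fun _ : E3 => inc κ w) y = 0 := fderiv_const_apply (inc κ w)
      rw [h1]
      rfl
    rw [h0, zero_add, hfd]
    have hne : inc κ y ≠ 0 := hmaps hy
    obtain ⟨u, hu⟩ := hsurj _ (hE3 (inc κ y) (hP y) hne (inc κ v) (inc κ w) (hP v) (hP w))
    rw [← hu]
    congr 1
    symm
    rw [hmet.chris_eq_iff hy]
    intro z
    rw [H5.pullb_kos hS.cyl.metric chrStatement hopen hsm hmaps y hy v w z]
    have h2 : fderiv ℝ (fderiv ℝ (inc κ : E3 → E5)) y = 0 := by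
      rw [hfd']
      exact fderiv_const_apply (inc κ)
    rw [h2, hfd]
    show G (inc κ y) (fderiv ℝ (inc κ : E3 → E5) y u) (fderiv ℝ (inc κ : E3 → E5) y z) =
      G (inc κ y) (0 + chris G (inc κ y) (inc κ v) (inc κ w)) (inc κ z)
    rw [hfd, zero_add, hu]
  refine ⟨hcyl, ?_⟩
  intro x hx v w
  have h1 := H5.nat chrStatement (Fin 5) (Fin 3) (pullb G (inc κ)) G (inc κ : E3 → E5) (Om (Fin 3))
    (Om (Fin 5)) hmet hS.cyl.metric hsm hmaps hstar x hx v w w
  have h2 := hS.sec (inc κ x) (hmaps hx) (inc κ v) (inc κ w)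
  rw [hfd] at h1
  show G (inc κ x) (fderiv ℝ (inc κ : E3 → E5) x (riem (pullb G (inc κ)) x v w w))
      (fderiv ℝ (inc κ : E3 → E5) x v) ≤
    G (inc κ x) (fderiv ℝ (inc κ : E3 → E5) x v) (fderiv ℝ (inc κ : E3 → E5) x v) *
      G (inc κ x) (fderiv ℝ (inc κ : E3 → E5) x w) (fderiv ℝ (inc κ : E3 → E5) x w) -
      G (inc κ x) (fderiv ℝ (inc κ : E3 → E5) x v) (fderiv ℝ (inc κ : E3 → E5) x w) ^ 2
  rw [hfd, h1]
  exact h2

end Pool.Agent.MVS.H88
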